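import Mathlib

set_option autoImplicit false

namespace Pool.Agent.Results.MP_06047d_an.Period54

/-- `x (n+k) = max {x (n+k-1), …, x (n+1), 0} - x n` for all `n`. -/
def IsSol (k : ℕ) (x : ℕ → ℝ) : Prop :=
  ∀ n, x (n + k) = (Finset.Icc 1 (k - 1)).fold max 0 (fun j => x (n + j)) - x n

/-- The conjectured set of possible periods. -/
def S (k : ℕ) : Set ℕ :=
  {1, if Even k then 1 else 2, 2 * k, 3 * k - 1} ∪
    {N | ∃ a b : ℕ, 1 ≤ a ∧ 1 ≤ b ∧ Nat.gcd a b = 1 ∧ N = (3 * k - 2) * a + (3 * k - 1) * b}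

def y (n : ℕ) : ℤ := ([-4, 3, 4, 4, 0, 8, 5, 4, 4, 8, 0, 3, 4, 4, -4, 4, 1, 0, 0, 8, 4, 7, 8, 8, 0, 4, 1, 0, -4, 4, 0, 3, 4, 8, 4, 8, 5, 4, 0, 4, -3, -1, 0, 4, 0, 7, 8, 8, 4, 8, 1, 0, 0, 4] : List ℤ).getD (n % 54) 0

lemma y_mod (n j : ℕ) : y (n + j) = y (n % 54 + j) := by simp [y]

lemma y_rec : ∀ r < 54,
    y (r + 5) = max (y (r + 1)) (max (y (r + 2)) (max (y (r + 3)) (max (y (r + 4)) 0))) - y r := by
  decide +kernel

lemma y_min : ∀ N < 54, 1 ≤ N → ∃ r < 54, y (r + N) ≠ y r := by decide +kernel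

theorem result : ∃ k, 5 ≤ k ∧ ∃ (x : ℕ → ℝ) (N : ℕ), IsSol k x ∧
    IsLeast {M : ℕ | 1 ≤ M ∧ ∀ n, x (n + M) = x n} N ∧ N ∉ S k := by
  refine ⟨5, le_rfl, fun n => y n, 54, fun n => ?_, ⟨⟨by norm_num, fun n => by simp [y]⟩, ?_⟩, ?_⟩
  · have e : Finset.Icc 1 (5 - 1) = {1, 2, 3, 4} := by decide
    have h := y_rec (n % 54) (Nat.mod_lt _ (by norm_num))
    rw [← y_mod, ← y_mod, ← y_mod, ← y_mod, ← y_mod, show y (n % 54) = y n by simp [y]] at h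
    rw [e, Finset.fold_insert (by decide), Finset.fold_insert (by decide),
      Finset.fold_insert (by decide), Finset.fold_singleton]
    simp only [h]
    push_cast
    rfl
  · rintro M ⟨h1, h2⟩
    by_contra hlt
    obtain ⟨r, -, hr⟩ := y_min M (by omega) h1
    exact hr (Int.cast_injective (α := ℝ) (h2 r))
  · rintro (h | ⟨a, b, ha, hb, hg, h⟩)
    · simp at h
      split_ifs at h <;> omega
    · obtain ⟨rfl, rfl⟩ : a = 2 ∧ b = 2 := by omega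
      exact absurd hg (by decide)

end Pool.Agent.Results.MP_06047d_an.Period54
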